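import Pool.Agent.H85.GaussMono

namespace Pool.Agent.Results.MP_dfcdcf_gt.NotInjective
open Pool.Agent.H85.Gauss

def beta : Diagram := [[(0, true, true), (1, false, true), (2, false, true), (3, true, true), (4, false, false), (5, true, false), (6, true, false), (7, false, false)], [(0, false, true), (1, true, true), (2, true, true), (3, false, true), (4, true, false), (5, false, false), (6, false, false), (7, true, false)]]

theorem beta_triv : Eqv false true 2 beta (triv 2) := by
  refine Eqv.fwd [[(0, true, true), (1, false, true), (2, false, true), (8, false, true), (9, false, false), (3, true, true), (8, true, true), (9, true, false), (4, false, false), (5, true, false), (6, true, false), (7, false, false)], [(0, false, true), (1, true, true), (2, true, true), (3, false, true), (4, true, false), (5, false, false), (6, false, false), (7, true, false)]]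
    (.r2 [O 0 true, U 1 true, U 2 true] [O 3 true] [U 4 false, O 5 false, O 6 false, U 7 false, none, U 0 true, O 1 true, O 2 true, U 3 true, O 4 false, U 5 false, U 6 false, O 7 false, none] [U 8 true, U 9 false] [O 8 true, O 9 false] 8 9 true true (by decide))
    (by decide) ?_
  refine Eqv.fwd [[(0, true, true), (1, false, true), (2, false, true), (8, false, true), (9, true, true), (3, true, true), (8, true, true), (9, false, true), (4, false, false), (5, true, false), (6, true, false), (7, false, false)], [(0, false, true), (1, true, true), (2, true, true), (3, false, true), (4, true, false), (5, false, false), (6, false, false), (7, true, false)]]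
    (.sc rfl [O 0 true, U 1 true, U 2 true, U 8 true] [O 3 true, O 8 true] [U 4 false, O 5 false, O 6 false, U 7 false, none, U 0 true, O 1 true, O 2 true, U 3 true, O 4 false, U 5 false, U 6 false, O 7 false, none] 9 false false (by decide))
    (by decide) ?_
  refine Eqv.fwd [[(0, true, true), (1, false, true), (2, false, true), (8, false, true), (3, true, true), (9, true, true), (8, true, true), (4, false, false), (9, false, true), (5, true, false), (6, true, false), (7, false, false)], [(0, false, true), (1, true, true), (2, true, true), (4, true, false), (3, false, true), (5, false, false), (6, false, false), (7, true, false)]]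
    (.r3 [O 0 true, U 1 true, U 2 true, U 8 true] [O 8 true] [O 5 false, O 6 false, U 7 false, none, U 0 true, O 1 true, O 2 true] [U 5 false, U 6 false, O 7 false, none] [O 9 true, O 3 true] [U 9 true, U 4 false] [U 3 true, O 4 false] 3 9 4 true true false false true true (by decide) (by decide) (by decide))
    (by decide) ?_
  refine Eqv.fwd [[(0, true, true), (1, false, true), (2, false, true), (8, false, true), (9, true, true), (3, true, true), (8, true, true), (4, false, false), (5, true, false), (9, false, true), (6, true, false), (7, false, false)], [(0, false, true), (1, true, true), (2, true, true), (4, true, false), (5, false, false), (3, false, true), (6, false, false), (7, true, false)]]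
    (.r3 [O 0 true, U 1 true, U 2 true, U 8 true] [O 8 true, U 4 false] [O 6 false, U 7 false, none, U 0 true, O 1 true, O 2 true, O 4 false] [U 6 false, O 7 false, none] [O 3 true, O 9 true] [U 9 true, O 5 false] [U 3 true, U 5 false] 9 3 5 true true false false true true (by decide) (by decide) (by decide))
    (by decide) ?_
  refine Eqv.fwd [[(0, true, true), (1, false, true), (8, false, true), (2, false, true), (9, true, true), (3, true, true), (4, false, false), (8, true, true), (5, true, false), (9, false, true), (6, true, false), (7, false, false)], [(0, false, true), (1, true, true), (4, true, false), (2, true, true), (5, false, false), (3, false, true), (6, false, false), (7, true, false)]]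
    (.r3 [O 0 true, U 1 true] [O 9 true, O 3 true] [O 5 false, U 9 true, O 6 false, U 7 false, none, U 0 true, O 1 true] [U 5 false, U 3 true, U 6 false, O 7 false, none] [U 2 true, U 8 true] [O 8 true, U 4 false] [O 2 true, O 4 false] 4 2 8 false true true false false true (by decide) (by decide) (by decide))
    (by decide) ?_
  refine Eqv.fwd [[(0, true, true), (1, false, true), (2, false, true), (8, false, true), (9, true, true), (3, true, true), (4, false, false), (5, true, false), (8, true, true), (9, false, true), (6, true, false), (7, false, false)], [(0, false, true), (1, true, true), (4, true, false), (5, false, false), (2, true, true), (3, false, true), (6, false, false), (7, true, false)]]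
    (.r3 [O 0 true, U 1 true] [O 9 true, O 3 true, U 4 false] [U 9 true, O 6 false, U 7 false, none, U 0 true, O 1 true, O 4 false] [U 3 true, U 6 false, O 7 false, none] [U 8 true, U 2 true] [O 8 true, O 5 false] [O 2 true, U 5 false] 5 8 2 false true true false false true (by decide) (by decide) (by decide))
    (by decide) ?_
  refine Eqv.fwd [[(0, true, true), (1, false, true), (2, false, true), (8, true, false), (9, true, true), (3, true, true), (4, false, false), (5, true, false), (8, false, false), (9, false, true), (6, true, false), (7, false, false)], [(0, false, true), (1, true, true), (4, true, false), (5, false, false), (2, true, true), (3, false, true), (6, false, false), (7, true, false)]]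
    (.sc rfl [O 0 true, U 1 true, U 2 true] [O 9 true, O 3 true, U 4 false, O 5 false] [U 9 true, O 6 false, U 7 false, none, U 0 true, O 1 true, O 4 false, U 5 false, O 2 true, U 3 true, U 6 false, O 7 false, none] 8 false true (by decide))
    (by decide) ?_
  refine Eqv.bwd [[(0, true, true), (1, false, true), (2, false, true), (3, true, true), (4, false, false), (5, true, false), (6, true, false), (7, false, false)], [(0, false, true), (1, true, true), (4, true, false), (5, false, false), (2, true, true), (3, false, true), (6, false, false), (7, true, false)]]
    (.r2 [O 0 true, U 1 true, U 2 true] [O 3 true, U 4 false, O 5 false] [O 6 false, U 7 false, none, U 0 true, O 1 true, O 4 false, U 5 false, O 2 true, U 3 true, U 6 false, O 7 false, none] [O 8 false, O 9 true] [U 8 false, U 9 true] 8 9 false true (by decide))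
    (by decide) ?_
  refine Eqv.fwd [[(0, true, true), (1, false, true), (2, false, true), (3, true, true), (4, false, false), (5, true, false), (6, true, false), (7, false, false)], [(0, false, true), (1, true, true), (20, false, true), (21, false, false), (4, true, false), (5, false, false), (2, true, true), (20, true, true), (21, true, false), (3, false, true), (6, false, false), (7, true, false)]]
    (.r2 [O 0 true, U 1 true, U 2 true, O 3 true, U 4 false, O 5 false, O 6 false, U 7 false, none, U 0 true, O 1 true] [O 4 false, U 5 false, O 2 true] [U 3 true, U 6 false, O 7 false, none] [U 20 true, U 21 false] [O 20 true, O 21 false] 20 21 true true (by decide))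
    (by decide) ?_
  refine Eqv.fwd [[(0, true, true), (1, false, true), (2, false, true), (3, true, true), (4, false, false), (5, true, false), (6, true, false), (7, false, false)], [(0, false, true), (1, true, true), (20, false, true), (21, true, true), (4, true, false), (5, false, false), (2, true, true), (20, true, true), (21, false, true), (3, false, true), (6, false, false), (7, true, false)]]
    (.sc rfl [O 0 true, U 1 true, U 2 true, O 3 true, U 4 false, O 5 false, O 6 false, U 7 false, none, U 0 true, O 1 true, U 20 true] [O 4 false, U 5 false, O 2 true, O 20 true] [U 3 true, U 6 false, O 7 false, none] 21 false false (by decide))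
    (by decide) ?_
  refine Eqv.fwd [[(0, true, true), (1, false, true), (2, false, true), (4, false, false), (3, true, true), (5, true, false), (6, true, false), (7, false, false)], [(0, false, true), (1, true, true), (20, false, true), (4, true, false), (21, true, true), (5, false, false), (2, true, true), (20, true, true), (3, false, true), (21, false, true), (6, false, false), (7, true, false)]]
    (.r3 [O 0 true, U 1 true, U 2 true] [O 5 false, O 6 false, U 7 false, none, U 0 true, O 1 true, U 20 true] [U 5 false, O 2 true, O 20 true] [U 6 false, O 7 false, none] [O 3 true, U 4 false] [O 21 true, O 4 false] [U 21 true, U 3 true] 4 21 3 false true true false false true (by decide) (by decide) (by decide))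
    (by decide) ?_
  refine Eqv.fwd [[(0, true, true), (1, false, true), (2, false, true), (4, false, false), (5, true, false), (3, true, true), (6, true, false), (7, false, false)], [(0, false, true), (1, true, true), (20, false, true), (4, true, false), (5, false, false), (21, true, true), (2, true, true), (20, true, true), (21, false, true), (3, false, true), (6, false, false), (7, true, false)]]
    (.r3 [O 0 true, U 1 true, U 2 true, U 4 false] [O 6 false, U 7 false, none, U 0 true, O 1 true, U 20 true, O 4 false] [O 2 true, O 20 true] [U 6 false, O 7 false, none] [O 3 true, O 5 false] [O 21 true, U 5 false] [U 3 true, U 21 true] 5 3 21 false true true false false true (by decide) (by decide) (by decide))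
    (by decide) ?_
  refine Eqv.fwd [[(0, true, true), (1, false, true), (4, false, false), (2, false, true), (5, true, false), (3, true, true), (6, true, false), (7, false, false)], [(0, false, true), (1, true, true), (4, true, false), (20, false, true), (5, false, false), (21, true, true), (20, true, true), (2, true, true), (21, false, true), (3, false, true), (6, false, false), (7, true, false)]]
    (.r3 [O 0 true, U 1 true] [O 5 false, O 3 true, O 6 false, U 7 false, none, U 0 true, O 1 true] [U 5 false, O 21 true] [U 21 true, U 3 true, U 6 false, O 7 false, none] [U 2 true, U 4 false] [U 20 true, O 4 false] [O 2 true, O 20 true] 20 2 4 true true false false true true (by decide) (by decide) (by decide))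
    (by decide) ?_
  refine Eqv.fwd [[(0, true, true), (1, false, true), (4, false, false), (5, true, false), (2, false, true), (3, true, true), (6, true, false), (7, false, false)], [(0, false, true), (1, true, true), (4, true, false), (5, false, false), (20, false, true), (21, true, true), (2, true, true), (20, true, true), (21, false, true), (3, false, true), (6, false, false), (7, true, false)]]
    (.r3 [O 0 true, U 1 true, U 4 false] [O 3 true, O 6 false, U 7 false, none, U 0 true, O 1 true, O 4 false] [O 21 true] [U 21 true, U 3 true, U 6 false, O 7 false, none] [U 2 true, O 5 false] [U 20 true, U 5 false] [O 20 true, O 2 true] 2 20 5 true true false false true true (by decide) (by decide) (by decide))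
    (by decide) ?_
  refine Eqv.fwd [[(0, true, true), (1, false, true), (4, false, false), (5, true, false), (2, false, true), (3, true, true), (6, true, false), (7, false, false)], [(0, false, true), (1, true, true), (4, true, false), (5, false, false), (20, true, false), (21, true, true), (2, true, true), (20, false, false), (21, false, true), (3, false, true), (6, false, false), (7, true, false)]]
    (.sc rfl [O 0 true, U 1 true, U 4 false, O 5 false, U 2 true, O 3 true, O 6 false, U 7 false, none, U 0 true, O 1 true, O 4 false, U 5 false] [O 21 true, O 2 true] [U 21 true, U 3 true, U 6 false, O 7 false, none] 20 false true (by decide))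
    (by decide) ?_
  refine Eqv.bwd [[(0, true, true), (1, false, true), (4, false, false), (5, true, false), (2, false, true), (3, true, true), (6, true, false), (7, false, false)], [(0, false, true), (1, true, true), (4, true, false), (5, false, false), (2, true, true), (3, false, true), (6, false, false), (7, true, false)]]
    (.r2 [O 0 true, U 1 true, U 4 false, O 5 false, U 2 true, O 3 true, O 6 false, U 7 false, none, U 0 true, O 1 true, O 4 false, U 5 false] [O 2 true] [U 3 true, U 6 false, O 7 false, none] [O 20 false, O 21 true] [U 20 false, U 21 true] 20 21 false true (by decide))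
    (by decide) ?_
  refine Eqv.bwd [[(0, true, true), (1, false, true), (4, false, false), (5, true, false), (2, false, true), (7, false, false)], [(0, false, true), (1, true, true), (4, true, false), (5, false, false), (2, true, true), (7, true, false)]]
    (.r2 [O 0 true, U 1 true, U 4 false, O 5 false, U 2 true] [U 7 false, none, U 0 true, O 1 true, O 4 false, U 5 false, O 2 true] [O 7 false, none] [O 3 true, O 6 false] [U 3 true, U 6 false] 3 6 true true (by decide))
    (by decide) ?_
  refine Eqv.bwd [[(0, true, true), (5, true, false), (2, false, true), (7, false, false)], [(0, false, true), (5, false, false), (2, true, true), (7, true, false)]]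
    (.r2 [O 0 true] [O 5 false, U 2 true, U 7 false, none, U 0 true] [U 5 false, O 2 true, O 7 false, none] [U 1 true, U 4 false] [O 1 true, O 4 false] 1 4 true true (by decide))
    (by decide) ?_
  refine Eqv.bwd [[(2, false, true), (7, false, false)], [(2, true, true), (7, true, false)]]
    (.r2 [] [U 2 true, U 7 false, none] [O 2 true, O 7 false, none] [O 0 true, O 5 false] [U 0 true, U 5 false] 0 5 true true (by decide))
    (by decide) ?_
  refine Eqv.bwd [[], []]
    (.r2 [] [none] [none] [U 2 true, U 7 false] [O 2 true, O 7 false] 2 7 true true (by decide))
    (by decide) ?_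
  exact .refl _
def gen (o : Bool) : Equiv.Perm (Fin 3) := if o then Equiv.swap 0 1 else finRotate 3

def let1 (e : End) : Equiv.Perm (Fin 3) := if e.2.2 then gen e.2.1 else (gen e.2.1)⁻¹

def phi : Word → Equiv.Perm (Fin 3)
  | [] => 1
  | none :: _ => 1
  | some e :: w => let1 e * phi w

theorem phi_congr (x : Word) {w w' : Word} (h : phi w = phi w') : phi (x ++ w) = phi (x ++ w') := by
  induction x with
  | nil => exact h
  | cons p x ih => cases p <;> simp [phi, ih]

theorem phi_map (σ : ℕ → ℕ) (w : Word) :
    phi (w.map (Option.map fun e => (σ e.1, e.2))) = phi w := by
  induction w with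
  | nil => rfl
  | cons p w ih => cases p <;> simp [phi, ih, let1]

theorem phi_OO (a b : ℕ) (s : Bool) (w : Word) : phi ([O a s, O b (!s)] ++ w) = phi w := by
  cases s <;> simp [phi, O, let1]

theorem phi_UU (a b : ℕ) (s d : Bool) (w : Word) :
    phi (ord d (U a s) (U b (!s)) ++ w) = phi w := by
  cases s <;> cases d <;> simp [phi, U, let1, ord]

theorem perm2 {α : Type*} {P Q A B : α} (h : [P, Q].Perm [A, B]) :
    (P = A ∧ Q = B) ∨ (P = B ∧ Q = A) := by
  have := List.perm_pair.mp h
  simpa using this

theorem seg {T M B P : Word} {a b c : ℕ} {sa sb sc t m u : Bool}
    (hT : T = ord t (O a sa) (O b sb)) (hM : M = ord m (U a sa) (O c sc))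
    (hB : B = ord u (U b sb) (U c sc)) (hP : P ∈ [T, M, B]) : none ∉ P ∧ ∃ e, some e ∈ P := by
  subst hT hM hB
  simp only [List.mem_cons, List.not_mem_nil, or_false] at hP
  rcases hP with rfl | rfl | rfl
  · cases t <;> simp [ord, O]
  · cases m <;> simp [ord, O, U]
  · cases u <;> simp [ord, U]

theorem share {a b c : ℕ} {sa sb sc t m u : Bool} :
    [ord t (O a sa) (O b sb), ord m (U a sa) (O c sc), ord u (U b sb) (U c sc)].Pairwise
      fun P Q : Word => ∃ e e' : End, some e ∈ P ∧ some e' ∈ Q ∧ e.1 = e'.1 := by
  simp only [List.pairwise_cons, List.mem_cons, List.not_mem_nil, or_false, forall_eq_or_imp,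
    forall_eq, IsEmpty.forall_iff, implies_true, List.Pairwise.nil, and_true]
  refine ⟨⟨⟨(a, true, sa), (a, false, sa), ?_, ?_, rfl⟩, ⟨(b, true, sb), (b, false, sb), ?_, ?_, rfl⟩⟩,
    ⟨(c, true, sc), (c, false, sc), ?_, ?_, rfl⟩⟩
  · cases t <;> simp [ord, O]
  · cases m <;> simp [ord, O, U]
  · cases t <;> simp [ord, O]
  · cases u <;> simp [ord, U]
  · cases m <;> simp [ord, O, U]
  · cases u <;> simp [ord, U]

theorem inv_move (oc : Bool) (h : ℕ → ℕ) (D' : Diagram) (hl : D'.length = 2) {w w' : Word}
    (hm : Move oc false w w') (hw : w' = flat D') (hc : w'.IsChain (Rh h)) : phi w = phi w' := by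
  cases hm with
  | rename σ hσ w => exact (phi_map σ _).symm
  | r1 x y a s d =>
    exfalso
    cases d
    · exact chain_ne h x [] y (a, false, s) (a, true, s) (by simp) (by simpa [ord, O, U] using hc) rfl
    · exact chain_ne h x [] y (a, true, s) (a, false, s) (by simp) (by simpa [ord, O, U] using hc) rfl
  | r2 x y z P Q a b s d hp =>
    simp only [List.append_assoc]
    refine phi_congr x ?_
    rcases perm2 hp with ⟨rfl, rfl⟩ | ⟨rfl, rfl⟩
    · rw [phi_OO]; exact phi_congr y (phi_UU a b s d z).symm
    · rw [phi_UU]; exact phi_congr y (phi_OO a b s z).symm
  | r3 x y z v P Q R a b c sa sb sc' t m u hp h1 h2 =>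
    exfalso
    have hs : [P, Q, R].Pairwise
        fun P Q : Word => ∃ e e' : End, some e ∈ P ∧ some e' ∈ Q ∧ e.1 = e'.1 :=
      (hp.pairwise_iff fun ⟨e, e', k1, k2, k3⟩ => ⟨e', e, k2, k1, k3.symm⟩).mpr share
    simp only [List.pairwise_cons, List.mem_cons, List.not_mem_nil, or_false, forall_eq_or_imp,
      forall_eq] at hs
    obtain ⟨⟨⟨e1, e2, k1, k2, k3⟩, -⟩, ⟨e3, e4, k4, k5, k6⟩, -⟩ := hs
    have hP := seg rfl rfl rfl (hp.subset (a := P) (by simp))
    have hQ := seg rfl rfl rfl (hp.subset (a := Q) (by simp))
    have hR := seg rfl rfl rfl (hp.subset (a := R) (by simp))
    have hy : none ∈ y := sep h x P.reverse y Q.reverse (z ++ R.reverse ++ v) (by simpa using hP.1)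
      (by simpa using hQ.1) e1 e2 (by simpa using k1) (by simpa using k2) k3
      (by simpa [List.append_assoc] using hc)
    have hz : none ∈ z := sep h (x ++ P.reverse ++ y) Q.reverse z R.reverse v (by simpa using hQ.1)
      (by simpa using hR.1) e3 e4 (by simpa using k4) (by simpa using k5) k6 hc
    obtain ⟨r1, r2, hr⟩ := List.append_of_mem (l := R.reverse) (List.mem_reverse.mpr k5)
    have hv : none ∈ r2 ++ v := none_mem_tail D' (x ++ P.reverse ++ y ++ Q.reverse ++ z ++ r1)
      (r2 ++ v) e4 (by rw [← hw, hr]; simp)
    have hcnt := count_flat D'
    rw [← hw, hl, hr] at hcnt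
    have c1 := List.count_pos_iff.mpr hy
    have c2 := List.count_pos_iff.mpr hz
    have c3 := List.count_pos_iff.mpr hv
    simp only [List.count_append, List.count_cons] at hcnt c3
    omega
  | oc _ x y a b s t =>
    simp only [List.append_assoc]
    refine phi_congr x ?_
    cases s <;> cases t <;> simp [phi, O, let1]
  | sc k => simp at k

theorem inv_eqv (oc : Bool) {D D' : Diagram} (h : EqvP oc 2 D D') :
    phi (flat D) = phi (flat D') := by
  induction h with
  | rel D D' k =>
    obtain ⟨-, ⟨h, hh⟩, -, hw, hm⟩ := k
    exact inv_move oc h D' hw.1 hm rfl (chain_flat h D' hh)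
  | refl _ => rfl
  | symm _ _ _ ih => exact ih.symm
  | trans _ _ _ _ _ i1 i2 => exact i1.trans i2

/-- A monotone 2-strand diagram that is nontrivial in `vP_2` and in `wP_2` but is sc-equivalent
to the trivial string link in `vSL_2` and in `wSL_2`. -/
theorem result : ∃ β : Diagram, WF 2 β ∧ Mono β ∧
    ∀ oc : Bool, ¬ EqvP oc 2 β (triv 2) ∧ Eqv oc true 2 β (triv 2) := by
  refine ⟨beta, by decide, ⟨id, by decide⟩, fun oc => ⟨fun h => ?_, ?_⟩⟩
  · have := inv_eqv oc h
    revert this
    decide
  · exact beta_triv.mono (by simp) id

end Pool.Agent.Results.MP_dfcdcf_gt.NotInjective
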